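import Pool.Agent.Lib.MP_305fdd_al.Su.CH.Cg
import Pool.Agent.Lib.MP_305fdd_al.Su.G.LemG

/-!
# MP_305fdd_al, closed surface groups, nondefect HNN extensions: the package of the cyclic cover

`circle_core`: the generic circle as a representation of the kernel of `Γ → ℤ/n`, of maximal rank.
`pk_of_er`: a representation of maximal rank gives a package.  `nil_circle`: Lemma G for the universal
representation of the vertex group.
-/

set_option autoImplicit false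
set_option linter.unusedSectionVars false

namespace Pool.Agent.SuT4

open Matrix (SpecialLinearGroup)
open Pool.Agent.FrN Pool.Agent.FrS Pool.Agent.SuCM Pool.Agent.SuTk Pool.Agent.SuUN
open Pool.Agent.Lib.MP_305fdd_al Pool.Agent.Su Pool.Agent.SuCH Pool.Agent.SuSM Pool.Agent.SuAA
  Pool.Agent.SuCO

/-- THE CIRCLE, as a representation of maximal rank of the kernel of `Γ → ℤ/n` -/
theorem circle_core {n : ℕ} [Fact n.Prime] {g : ℕ} (hg : 2 ≤ g) {Λ Γ : Type} [Group Λ] [Group Γ]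
    [Group.FG Λ] (Φ : NatBij Λ (SurfaceGroup g)) {π : Λ →* Γ}
    (hπ : Function.Surjective π) {A : Subgroup Γ} {zm zp s : Γ} {N : ℕ} (h : HG N A zm zp s)
    (hN : 2 * n ≤ N) {D : Type} [CommRing D] [IsDomain D] [Algebra (ZMod 2) D]
    [Algebra.FiniteType (ZMod 2) D] {y : A →* SpecialLinearGroup (Fin 2) D}
    (hgen : Algebra.adjoin (ZMod 2) {x | ∃ a i j, x = (y a).1 i j} = ⊤)
    (h1 : Transcendental (ZMod 2) (y ⟨zm, h.mm⟩).1.trace)
    (h2 : Transcendental (Algebra.adjoin (ZMod 2) {(y ⟨zm, h.mm⟩).1.trace})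
      (y ⟨zp, h.mp⟩).1.trace)
    (hd : ((6 * g - 3 : ℕ) : Cardinal) ≤ Algebra.trdeg (ZMod 2) D) :
    ∃ (φ : Γ →* Multiplicative (ZMod n)) (hA : ∀ a : A, (a : Γ) ∈ φ.ker) (Ω : Type) (_ : Field Ω)
      (_ : Algebra (ZMod 2) Ω) (σ : D →ₐ[ZMod 2] Ω) (r : φ.ker →* SpecialLinearGroup (Fin 2) Ω),
      Function.Injective σ ∧ (∀ a : A, r ⟨a, hA a⟩ = SpecialLinearGroup.map (σ : D →+* Ω) (y a)) ∧
      Nonempty (NatBij (φ.comp π).ker (SurfaceGroup (n * (g - 1) + 1))) ∧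
      Group.FG (φ.comp π).ker ∧
      ((6 * (n * (g - 1) + 1) - 3 : ℕ) : ℕ∞) ≤ er (OO 2 (r.comp (kerMap π φ)) : Set Ω) := by
  have hprime : n.Prime := Fact.out
  have hn2 : 2 ≤ n := hprime.two_le
  have : NeZero n := ⟨hprime.ne_zero⟩
  have hlt : Algebra.trdeg (ZMod 2) D < Cardinal.aleph0 := trdeg_lt_aleph0_of_finiteType
  obtain ⟨d, hd'⟩ := Cardinal.lt_aleph0.1 hlt
  have hd1 : 6 * g - 3 ≤ d := by
    rw [hd'] at hd
    exact_mod_cast hd
  obtain ⟨Ω, _, _, σ, T, hσ, hT, hr⟩ := gen_circle hn2 hgen h1 h2 hd'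
  let Y : ZMod n → (A →* SpecialLinearGroup (Fin 2) Ω) := fun i =>
    (SpecialLinearGroup.map (σ i : D →+* Ω)).comp y
  obtain ⟨Θ, hΘA, hΘs⟩ := h.circ hN Y T hT
  let φ : Γ →* Multiplicative (ZMod n) := (Wr.pr n _).comp Θ
  have hφ : ∀ x, φ x = Multiplicative.ofAdd (Θ x).k := fun _ => rfl
  have hφA : ∀ a : A, φ a = 1 := by
    intro a
    rw [hφ, hΘA]
    rfl
  have hφ1 : φ.comp π ≠ 1 := by
    intro h0
    obtain ⟨x, hx⟩ := hπ s
    have h3 := DFunLike.congr_fun h0 x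
    rw [MonoidHom.comp_apply, hx, hφ, hΘs, MonoidHom.one_apply] at h3
    have h4 : (1 : ZMod n) = 0 := h3
    have h5 : ((1 : ℕ) : ZMod n) = 0 := by exact_mod_cast h4
    rw [ZMod.natCast_eq_zero_iff] at h5
    have := Nat.le_of_dvd one_pos h5
    omega
  obtain ⟨Ψ⟩ := SuCov.cov_natBij (p := n) (by omega : 1 ≤ g) Φ (φ.comp π) hφ1
  have hfin : Finite (Multiplicative (ZMod n)) := inferInstanceAs (Finite (ZMod n))
  have hfi : (φ.comp π).ker.FiniteIndex := Subgroup.finiteIndex_ker _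
  have hfg : Group.FG (φ.comp π).ker := inferInstance
  let R' : (φ.comp π).ker →* SpecialLinearGroup (Fin 2) Ω := (cir Θ φ hφ).comp (kerMap π φ)
  have hER : er (OO 2 R' : Set Ω) = er (En (cir Θ φ hφ) Set.univ) := by
    rw [er_OO, En_comp _ (kerMap_surj hπ φ)]
  have hg' : 2 ≤ n * (g - 1) + 1 := by
    have h3 : 1 ≤ g - 1 := by omega
    nlinarith
  have hle := er_le hg' Ψ R'
  have hge := er_cir Θ φ hφ Y T hΘA hΘs
  rw [← hER] at hge
  have hge' : ((n * d : ℕ) : ℕ∞) ≤ er (OO 2 R' : Set Ω) + (3 * (n - 1) : ℕ) := hr.trans hge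
  refine ⟨φ, fun a => hφA a, Ω, inferInstance, inferInstance, σ 0, cir Θ φ hφ, hσ 0, ?_, ⟨Ψ⟩, hfg,
    ?_⟩
  · intro a
    rw [cir_apply, hΘA]
    rfl
  change _ ≤ er (OO 2 R' : Set Ω)
  obtain ⟨e, he⟩ : ∃ e : ℕ, er (OO 2 R' : Set Ω) = e :=
    ENat.ne_top_iff_exists.1 (ne_top_of_le_ne_top (ENat.natCast_ne_top _) hle) |>.imp fun _ h => h.symm
  rw [he] at hle hge' ⊢
  have hle' : e ≤ 6 * (n * (g - 1) + 1) - 3 := by exact_mod_cast hle
  have hge'' : n * d ≤ e + 3 * (n - 1) := by exact_mod_cast hge'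
  obtain ⟨G, rfl⟩ : ∃ G, g = G + 1 := ⟨g - 1, by omega⟩
  obtain ⟨m, rfl⟩ : ∃ m, n = m + 1 := ⟨n - 1, by omega⟩
  rw [Nat.add_sub_cancel] at hle' hge'' ⊢
  have h6 : 6 * (G + 1) - 3 = 6 * G + 3 := by omega
  have h7 : 6 * ((m + 1) * G + 1) - 3 = 6 * ((m + 1) * G) + 3 := by omega
  rw [h6] at hd1
  rw [h7]
  have h8 : (m + 1) * (6 * G + 3) ≤ (m + 1) * d := Nat.mul_le_mul_left _ hd1
  have h9 : (m + 1) * (6 * G + 3) = 6 * ((m + 1) * G) + 3 + 3 * m := by ring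
  have h10 : 6 * ((m + 1) * G) + 3 ≤ e := by omega
  exact_mod_cast h10

/-- a representation of maximal rank gives a package -/
theorem pk_of_er {g : ℕ} (hg : 2 ≤ g) {Λ Γ : Type} [Group Λ] [Group Γ] (hfg : Group.FG Λ)
    (Φ : NatBij Λ (SurfaceGroup g)) {π : Λ →* Γ} (hπ : Function.Surjective π)
    {F : Type} [Field F] [Algebra (ZMod 2) F] {ρ : Γ →* SpecialLinearGroup (Fin 2) F}
    (hρ : Function.Injective ρ) {Ω : Type} [Field Ω] [Algebra (ZMod 2) Ω]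
    (r : Γ →* SpecialLinearGroup (Fin 2) Ω)
    (hr : ((6 * g - 3 : ℕ) : ℕ∞) ≤ er (OO 2 (r.comp π) : Set Ω)) :
    ∃ (F' : Type) (_ : Field F') (_ : Algebra (ZMod 2) F') (ρ' : Γ →* SpecialLinearGroup (Fin 2) F'),
      Pk g π ρ' ∧ ∃ e : OO 2 ρ' ≃ₐ[ZMod 2] OO 2 r, ∀ x i j,
        e ⟨(ρ' x).1 i j, mem_OO ρ' x i j⟩ = ⟨(r x).1 i j, mem_OO r x i j⟩ := by
  obtain ⟨F', _, _, ρ₅, hgn, hf⟩ := exists_gn (zz_prime Φ hg)
  obtain ⟨φ, hφ⟩ := SuPts.Gn_sp_red hg Φ hgn Ω (r.comp π)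
  have h1 := range_spec ρ₅ (r.comp π) φ hφ
  have h2 : (OO 2 (r.comp π) : Set Ω) = Set.range φ := by
    rw [← h1]
    rfl
  have h3 : Function.Injective φ := inj_of_er φ ((er_mono (Set.subset_univ _)).trans
    (le_of_eq (SuCM.er_univ (trdeg_eq Φ hg hgn hf)))) (by rw [← h2]; exact hr)
  have hk1 : π.ker ≤ ρ₅.ker := by
    intro x hx
    rw [MonoidHom.mem_ker] at hx ⊢
    apply Subtype.ext
    ext i j
    have h4 : φ ⟨(ρ₅ x).1 i j, mem_OO ρ₅ x i j⟩ = φ ((1 : Matrix (Fin 2) (Fin 2) (OO 2 ρ₅)) i j) := by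
      rw [hφ, MonoidHom.comp_apply, hx, map_one, Matrix.SpecialLinearGroup.coe_one,
        Matrix.one_apply, Matrix.one_apply]
      split_ifs
      · exact (map_one φ).symm
      · exact (map_zero φ).symm
    have h5 := congrArg Subtype.val (h3 h4)
    change (ρ₅ x).1 i j = _
    refine h5.trans ?_
    rw [Matrix.SpecialLinearGroup.coe_one, Matrix.one_apply, Matrix.one_apply]
    split_ifs <;> rfl
  have hk2 : ρ₅.ker ≤ π.ker := by
    intro x hx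
    have h4 := SuPts.Gn_ker_le hg Φ hgn F (ρ.comp π) hx
    rw [MonoidHom.mem_ker, MonoidHom.comp_apply] at h4
    rw [MonoidHom.mem_ker]
    apply hρ
    rw [h4, map_one]
  let ρ' : Γ →* SpecialLinearGroup (Fin 2) F' := MonoidHom.liftOfSurjective π hπ ⟨ρ₅, hk1⟩
  have hρ' : ρ'.comp π = ρ₅ := MonoidHom.liftOfRightInverse_comp _ _ _ _
  have hinj : Function.Injective ρ' := by
    rw [injective_iff_map_eq_one]
    intro x hx
    obtain ⟨w, rfl⟩ := hπ x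
    have h4 : ρ₅ w = 1 := by
      rw [← hρ', MonoidHom.comp_apply, hx]
    exact hk2 h4
  have hOO : OO 2 ρ' = OO 2 ρ₅ := by
    rw [← hρ', SuAA.OO_comp hπ]
  refine ⟨F', inferInstance, inferInstance, ρ', ⟨hg, ⟨Φ⟩, hfg, hπ, hinj, by rw [hρ']; exact hgn,
    by rw [hOO]; exact hf⟩, ?_⟩
  let e₁ : OO 2 ρ₅ ≃ₐ[ZMod 2] OO 2 (r.comp π) :=
    (AlgEquiv.ofInjective φ h3).trans (Subalgebra.equivOfEq _ _ h1)
  let e : OO 2 ρ' ≃ₐ[ZMod 2] OO 2 r :=
    ((Subalgebra.equivOfEq _ _ hOO).trans e₁).trans (Subalgebra.equivOfEq _ _ (SuAA.OO_comp hπ r))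
  refine ⟨e, fun x i j => ?_⟩
  obtain ⟨w, rfl⟩ := hπ x
  apply Subtype.ext
  change φ ⟨(ρ' (π w)).1 i j, _⟩ = (r (π w)).1 i j
  have h4 : ρ' (π w) = ρ₅ w := by
    rw [← hρ', MonoidHom.comp_apply]
  have h5 := hφ w i j
  rw [MonoidHom.comp_apply] at h5
  rw [← h5]
  congr 1
  apply Subtype.ext
  change (ρ' (π w)).1 i j = (ρ₅ w).1 i j
  rw [h4]

/-- THE PACKAGE OF THE CYCLIC COVER contains the universal representation of the vertex group -/
theorem circle_pk_n {n : ℕ} [Fact n.Prime] {g : ℕ} {Λ Γ F : Type} [Group Λ] [Group Γ]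
    [Field F] [Algebra (ZMod 2) F] {π : Λ →* Γ} {ρ : Γ →* SpecialLinearGroup (Fin 2) F}
    (P : Pk g π ρ) {A : Subgroup Γ} {zm zp s : Γ} {N : ℕ} (h : HG N A zm zp s)
    (hN : 2 * n ≤ N) {D : Type} [CommRing D] [IsDomain D] [Algebra (ZMod 2) D]
    [Algebra.FiniteType (ZMod 2) D] {y : A →* SpecialLinearGroup (Fin 2) D}
    (hgen : Algebra.adjoin (ZMod 2) {x | ∃ a i j, x = (y a).1 i j} = ⊤)
    (h1 : Transcendental (ZMod 2) (y ⟨zm, h.mm⟩).1.trace)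
    (h2 : Transcendental (Algebra.adjoin (ZMod 2) {(y ⟨zm, h.mm⟩).1.trace})
      (y ⟨zp, h.mp⟩).1.trace)
    (hd : ((6 * g - 3 : ℕ) : Cardinal) ≤ Algebra.trdeg (ZMod 2) D) :
    ∃ (φ : Γ →* Multiplicative (ZMod n)) (hA : ∀ a : A, φ a = 1) (F' : Type) (_ : Field F')
      (_ : Algebra (ZMod 2) F') (ρ' : φ.ker →* SpecialLinearGroup (Fin 2) F'),
      Pk (n * (g - 1) + 1) (kerMap π φ) ρ' ∧ ∃ σ : D →ₐ[ZMod 2] F', Function.Injective σ ∧
        ∀ (a : A) i j, (ρ' ⟨a, hA a⟩).1 i j = σ ((y a).1 i j) := by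
  have hg := P.two
  have := P.fgL
  obtain ⟨Φ⟩ := P.nb
  obtain ⟨φ, hA, Ω, _, _, σ₀, r, hσ, hrA, ⟨Ψ⟩, hfg, her⟩ :=
    circle_core hg Φ P.surj h hN hgen h1 h2 hd
  have hg' : 2 ≤ n * (g - 1) + 1 := by
    have h3 : 1 ≤ g - 1 := by omega
    have hn2 : 2 ≤ n := (Fact.out : n.Prime).two_le
    nlinarith
  have hρ' : Function.Injective (ρ.comp φ.ker.subtype) := P.inj.comp Subtype.val_injective
  obtain ⟨F', _, _, ρ', P', e, he⟩ := pk_of_er hg' hfg Ψ (kerMap_surj P.surj φ) hρ' r her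
  have hmem : ∀ x, σ₀ x ∈ OO 2 r := by
    intro x
    have hx : x ∈ Algebra.adjoin (ZMod 2) {x | ∃ a i j, x = (y a).1 i j} := by
      rw [hgen]
      trivial
    induction hx using Algebra.adjoin_induction with
    | mem x hx =>
      obtain ⟨a, p, q, rfl⟩ := hx
      have h3 : σ₀ ((y a).1 p q) = (r ⟨a, hA a⟩).1 p q := by
        rw [hrA]
        rfl
      rw [h3]
      exact mem_OO r _ p q
    | algebraMap c =>
      rw [AlgHom.commutes]
      exact Subalgebra.algebraMap_mem _ c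
    | add x x' _ _ h1 h2 => rw [map_add]; exact add_mem h1 h2
    | mul x x' _ _ h1 h2 => rw [map_mul]; exact mul_mem h1 h2
  let σ : D →ₐ[ZMod 2] F' :=
    (OO 2 ρ').val.comp (e.symm.toAlgHom.comp (σ₀.codRestrict (OO 2 r) hmem))
  refine ⟨φ, fun a => hA a, F', inferInstance, inferInstance, ρ', P', σ, ?_, ?_⟩
  · intro x x' hxx
    have h3 := e.symm.injective (Subtype.val_injective hxx)
    exact hσ (congrArg Subtype.val h3)
  · intro a i j
    have h3 : σ₀.codRestrict (OO 2 r) hmem ((y a).1 i j) =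
        ⟨(r ⟨a, hA a⟩).1 i j, mem_OO r _ i j⟩ := by
      apply Subtype.ext
      change σ₀ ((y a).1 i j) = (r ⟨a, hA a⟩).1 i j
      rw [hrA]
      rfl
    change _ = ((e.symm (σ₀.codRestrict (OO 2 r) hmem ((y a).1 i j)) : OO 2 ρ') : F')
    rw [h3, ← he, AlgEquiv.symm_apply_apply]

/-- THE PACKAGE OF THE CYCLIC COVER OF DEGREE FIVE -/
theorem circle_pk {g : ℕ} {Λ Γ F : Type} [Group Λ] [Group Γ]
    [Field F] [Algebra (ZMod 2) F] {π : Λ →* Γ} {ρ : Γ →* SpecialLinearGroup (Fin 2) F}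
    (P : Pk g π ρ) {A : Subgroup Γ} {zm zp s : Γ} {N : ℕ} (h : HG N A zm zp s)
    (hN : 10 ≤ N) {D : Type} [CommRing D] [IsDomain D] [Algebra (ZMod 2) D]
    [Algebra.FiniteType (ZMod 2) D] {y : A →* SpecialLinearGroup (Fin 2) D}
    (hgen : Algebra.adjoin (ZMod 2) {x | ∃ a i j, x = (y a).1 i j} = ⊤)
    (h1 : Transcendental (ZMod 2) (y ⟨zm, h.mm⟩).1.trace)
    (h2 : Transcendental (Algebra.adjoin (ZMod 2) {(y ⟨zm, h.mm⟩).1.trace})
      (y ⟨zp, h.mp⟩).1.trace)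
    (hd : ((6 * g - 3 : ℕ) : Cardinal) ≤ Algebra.trdeg (ZMod 2) D) :
    ∃ (φ : Γ →* Multiplicative (ZMod 5)) (hA : ∀ a : A, φ a = 1) (F' : Type) (_ : Field F')
      (_ : Algebra (ZMod 2) F') (ρ' : φ.ker →* SpecialLinearGroup (Fin 2) F'),
      Pk (5 * (g - 1) + 1) (kerMap π φ) ρ' ∧ ∃ σ : D →ₐ[ZMod 2] F', Function.Injective σ ∧
        ∀ (a : A) i j, (ρ' ⟨a, hA a⟩).1 i j = σ ((y a).1 i j) := by
  have : Fact (Nat.Prime 5) := ⟨by norm_num⟩
  exact circle_pk_n (n := 5) P h hN hgen h1 h2 hd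

/-- LEMMA G for the universal representation of the vertex group of a nondefect HNN extension -/
theorem nil_circle {g : ℕ} {Λ Γ F : Type} [Group Λ] [Group Γ]
    [Field F] [Algebra (ZMod 2) F] {π : Λ →* Γ} {ρ : Γ →* SpecialLinearGroup (Fin 2) F}
    (P : Pk g π ρ) {A : Subgroup Γ} {zm zp s : Γ} {N : ℕ} (h : HG N A zm zp s)
    (hN : 10 ≤ N) {D : Type} [CommRing D] [IsDomain D] [Algebra (ZMod 2) D]
    [Algebra.FiniteType (ZMod 2) D] {y : A →* SpecialLinearGroup (Fin 2) D}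
    (hgen : Algebra.adjoin (ZMod 2) {x | ∃ a i j, x = (y a).1 i j} = ⊤)
    (h1 : Transcendental (ZMod 2) (y ⟨zm, h.mm⟩).1.trace)
    (h2 : Transcendental (Algebra.adjoin (ZMod 2) {(y ⟨zm, h.mm⟩).1.trace})
      (y ⟨zp, h.mp⟩).1.trace)
    (hd : ((6 * g - 3 : ℕ) : Cardinal) ≤ Algebra.trdeg (ZMod 2) D)
    (hm : Model (5 * (g - 1) + 1)) :
    ∃ (F' : Type) (_ : Field F') (_ : Algebra (ZMod 2) F') (σ : D →ₐ[ZMod 2] F'),
      Function.Injective σ ∧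
      SuFin.NilS ((SpecialLinearGroup.map (σ : D →+* F')).comp y) := by
  obtain ⟨φ, hA, F', _, _, ρ', P', σ, hσ, hσ'⟩ := circle_pk P h hN hgen h1 h2 hd
  have hN' : SuFin.NilS ρ' := SuG.lemG' P' hm
  refine ⟨F', inferInstance, inferInstance, σ, hσ, ?_⟩
  intro H hH hab
  let ι : A →* φ.ker := (Subgroup.inclusion fun a ha => hA ⟨a, ha⟩ : A →* φ.ker)
  have hι : Function.Injective ι := Subgroup.inclusion_injective _
  let f : H ≃* H.map ι := H.equivMapOfInjective ι hι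
  have h3 : (H.map ι).FG := by
    obtain ⟨s, hs⟩ := hH
    classical
    refine ⟨s.image ι, ?_⟩
    rw [Finset.coe_image, ← MonoidHom.map_closure, hs]
  have h4 : ¬ Pool.Agent.FrAsm.Ab (H.map ι) := by
    intro h5
    apply hab
    intro x x'
    apply f.injective
    rw [map_mul, map_mul]
    exact h5 _ _
  refine SuFin.NilR.equiv f (fun x => ?_) (hN' _ h3 h4)
  apply Subtype.ext
  ext i j
  exact (hσ' x i j).symm

end Pool.Agent.SuT4
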