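import Pool.Agent.Lib.MP_305fdd_al.Su.CM.Use
import Pool.Agent.Lib.MP_305fdd_al.Su.Fin.Free
import Pool.Agent.Lib.MP_305fdd_al.Su.E.Gen

/-!
# MP_305fdd_al, closed surface groups, assembly T4, T5: amalgams (master text, section 0)

`t4_am`: if the package group acts on a tree with one orbit of edges, two orbits of vertices, malnormal
cyclic edge groups, finitely generated non-abelian vertex groups, then the vertex groups are free, if
Lemma G holds (`NilS ρ`).  `t5_am`: then the package group is the closed surface group.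
-/

set_option autoImplicit false
set_option linter.unusedSectionVars false

namespace Pool.Agent.SuT4

open Matrix (SpecialLinearGroup)
open Pool.Agent.FrN Pool.Agent.FrS Pool.Agent.SuD Pool.Agent.Lib.MP_305fdd_al
  Pool.Agent.MP_305fdd_al Pool.Agent.SurfCnt Pool.Agent.FrAsm Pool.Agent.SuCM Pool.Agent.SuUp
  Pool.Agent.SuT

variable {g : ℕ} {Λ Γ F : Type} [Group Λ] [Group Γ] [Field F] [Algebra (ZMod 2) F]
  {π : Λ →* Γ} {ρ : Γ →* SpecialLinearGroup (Fin 2) F}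

/-- an amalgam for all groups is an amalgam for the groups `SL_2` -/
theorem glu_of_amUP {A A' : Subgroup Γ} {z : Γ} (h : SuE.AmUP Γ A A' z) : Glu A A' z where
  gen := h.gen
  mem := h.mem
  mem' := h.mem'
  ext _ _ _ f f' hf := h.ext _ f f' hf

/-- both sides of a cyclic amalgam are free -/
theorem free_am (P : SuAA.Pk g π ρ) (hN : SuFin.NilS ρ) {A A' : Subgroup Γ} {z : Γ}
    (hG : Glu A A' z) (hfg : A.FG) (hfg' : A'.FG) (hz : z ≠ 1)
    (hA : ¬ ∀ x ∈ A, ∀ y ∈ A, x * y = y * x) (hA' : ¬ ∀ x ∈ A', ∀ y ∈ A', x * y = y * x) :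
    ∃ b b' : ℕ, b + b' = 2 * g ∧ Nonempty (A ≃* FreeGroup (Fin b)) ∧
      Nonempty (A' ≃* FreeGroup (Fin b')) := by
  have h := inp_of_glu P hG hfg hfg' hz hA hA'
  have := h.fg
  have := h.fg'
  obtain ⟨b, h1, h2, h3, h4⟩ := h.out
  obtain ⟨b', h1', h2', h3', h4'⟩ := h.symm.out
  exact ⟨b, b', (h.num h1 h1' h2 h2').1,
    SuFin.free_of_pts (P.inj.comp Subtype.val_injective) h1 h2 h3 h4 (hN.sub A),
    SuFin.free_of_pts (P.inj.comp Subtype.val_injective) h1' h2' h3' h4' (hN.sub A')⟩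

theorem isFree_of {A : Type} [Group A] {b : ℕ} (h : Nonempty (A ≃* FreeGroup (Fin b))) :
    IsFreeGroup A := by
  obtain ⟨e⟩ := h
  exact IsFreeGroup.ofMulEquiv e.symm

/-- a non-abelian stabilizer -/
theorem na_of {A : Subgroup Γ} (h : ∃ a ∈ A, ∃ b ∈ A, a * b ≠ b * a) :
    ¬ ∀ x ∈ A, ∀ y ∈ A, x * y = y * x := by
  obtain ⟨a, ha, b, hb, hab⟩ := h
  exact fun h => hab (h a ha b hb)

/-- the generator of an edge group -/
theorem exists_z {Z : Subgroup Γ} (h : MC Z) :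
    ∃ z : Γ, z ≠ 1 ∧ (∀ n : ℕ, 0 < n → z ^ n ≠ 1) ∧ Z = Subgroup.zpowers z := by
  obtain ⟨⟨z, hz, hZ⟩, _⟩ := h
  refine ⟨z, ?_, hz, hZ⟩
  have := hz 1 one_pos
  rwa [pow_one] at this

/-- T4 for amalgams: the vertex groups are free. -/
theorem t4_am (P : SuAA.Pk g π ρ) (hN : SuFin.NilS ρ) {V : Type} [MulAction Γ V]
    {X : SimpleGraph V} (hX : Spl Γ X) {u v : V} (huv : X.Adj u v) (hoe : OE Γ X u v)
    (hno : ∀ g : Γ, g • u ≠ v) :
    IsFreeGroup (MulAction.stabilizer Γ u) ∧ IsFreeGroup (MulAction.stabilizer Γ v) := by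
  obtain ⟨z, hz1, hz, hZ⟩ := exists_z (hX.mc u v huv)
  have h1 := SuE.amUP_of_tree hX.toTA huv hoe hno z hZ
  obtain ⟨b, b', _, h2, h3⟩ := free_am P hN (glu_of_amUP h1) (hX.fg u) (hX.fg v) hz1
    (na_of (hX.na u)) (na_of (hX.na v))
  exact ⟨isFree_of h2, isFree_of h3⟩

/-- T5 for amalgams: the package group is the closed surface group. -/
theorem t5_am (P : SuAA.Pk g π ρ) (hN : SuFin.NilS ρ) {V : Type} [MulAction Γ V]
    {X : SimpleGraph V} (hX : Spl Γ X) {u v : V} (huv : X.Adj u v) (hoe : OE Γ X u v)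
    (hno : ∀ g : Γ, g • u ≠ v) : Nonempty (Γ ≃* Su.SurfaceGroup g) := by
  obtain ⟨z, hz1, hz, hZ⟩ := exists_z (hX.mc u v huv)
  obtain ⟨h1, h2⟩ := t4_am P hN hX huv hoe hno
  obtain ⟨Φ⟩ := P.nb
  have hg : 1 ≤ g := by have := P.two; omega
  exact SuE.surf_of_tree_am_free hg Φ π P.surj P.kerSL hX.toTA huv hoe hno z hZ
    (SuE.lgOrd_of_inj P.fg ρ P.inj z hz) h1 h2

end Pool.Agent.SuT4
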