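import Pool.Agent.Lib.MP_305fdd_al.Su.StmTree
import Pool.Agent.Lib.MP_305fdd_al.Fr.N.Hlp

/-!
# MP_305fdd_al, closed surface groups: the nondefect condition (master text, section 6)

`NDf ρ A z z'` : the restriction of `ρ` to `A` is a specialisation of a representation of `A` over a
domain for which the traces of `z` and `z'` are different.
-/

set_option autoImplicit false

namespace Pool.Agent.SuT4

open Matrix Polynomial Pool.Agent.FrS Pool.Agent.SuT

variable {Γ F : Type} [Group Γ] [Field F] [Algebra (ZMod 2) F]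

/-- NONDEFECT -/
def NDf (ρ : Γ →* SpecialLinearGroup (Fin 2) F) (A : Subgroup Γ) (z z' : Γ) : Prop :=
  ∃ (R : Type) (_ : CommRing R) (_ : IsDomain R) (_ : Algebra (ZMod 2) R) (F' : Type) (_ : Field F')
    (i : F →+* F') (s : R →+* F') (r : A →* SpecialLinearGroup (Fin 2) R),
    (∀ a : A, SpecialLinearGroup.map s (r a) = SpecialLinearGroup.map i (ρ a)) ∧
    ∃ (hz : z ∈ A) (hz' : z' ∈ A), (r ⟨z, hz⟩).1.trace ≠ (r ⟨z', hz'⟩).1.trace

variable {ρ : Γ →* SpecialLinearGroup (Fin 2) F} {A : Subgroup Γ} {z z' : Γ}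

/-- polynomial deformations -/
theorem ndf_of_dfc (hz : z ∈ A) (hz' : z' ∈ A) (h : ¬ Dfc ρ A z z') : NDf ρ A z z' := by
  unfold Dfc at h
  push Not at h
  obtain ⟨r, h1, h2, h3⟩ := h
  let r' : A →* SpecialLinearGroup (Fin 2) F[X] :=
    MonoidHom.mk' (fun a => r a) (fun a b => h1 a a.2 b b.2)
  refine ⟨F[X], inferInstance, inferInstance, inferInstance, F, inferInstance, RingHom.id F,
    evalRingHom (0 : F), r', ?_, hz, hz', h3⟩
  intro a
  change SpecialLinearGroup.map (evalRingHom (0 : F)) (r a) = _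
  rw [h2 a a.2]
  rfl

/-- the trace of a power is determined by the trace -/
theorem trace_pow_eq {R : Type} [CommRing R] {x y : SpecialLinearGroup (Fin 2) R}
    (h : x.1.trace = y.1.trace) (n : ℕ) : (x ^ n).1.trace = (y ^ n).1.trace := by
  have key : ∀ (x : SpecialLinearGroup (Fin 2) R) (n : ℕ),
      (x ^ (n + 2)).1.trace = x.1.trace * (x ^ (n + 1)).1.trace - (x ^ n).1.trace := by
    intro x n
    have h1 := Pool.Agent.FrN.tr_rel (x ^ (n + 1)) x
    have h2 : x ^ (n + 1) * x = x ^ (n + 2) := (pow_succ x (n + 1)).symm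
    have h3 : x ^ (n + 1) * x⁻¹ = x ^ n := by rw [pow_succ, mul_inv_cancel_right]
    rw [h2, h3] at h1
    linear_combination h1
  induction n using Nat.twoStepInduction with
  | zero => rw [pow_zero, pow_zero]
  | one => rw [pow_one, pow_one, h]
  | more n h1 h2 => rw [key, key, h, h1, h2]

theorem trace_zpow_eq {R : Type} [CommRing R] {x y : SpecialLinearGroup (Fin 2) R}
    (h : x.1.trace = y.1.trace) (n : ℤ) : (x ^ n).1.trace = (y ^ n).1.trace := by
  have hinv : ∀ x : SpecialLinearGroup (Fin 2) R, (x⁻¹).1.trace = x.1.trace := by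
    intro x
    have h1 := Pool.Agent.FrN.tr_rel 1 x
    rw [one_mul, one_mul] at h1
    have h2 : (1 : SpecialLinearGroup (Fin 2) R).1.trace = 2 := by
      change (1 : Matrix (Fin 2) (Fin 2) R).trace = 2
      simp
    rw [h2] at h1
    linear_combination h1
  obtain ⟨m, rfl | rfl⟩ := n.eq_nat_or_neg
  · rw [zpow_natCast, zpow_natCast]
    exact trace_pow_eq h m
  · rw [_root_.zpow_neg, _root_.zpow_neg, zpow_natCast, zpow_natCast, hinv, hinv]
    exact trace_pow_eq h m

/-- from powers to generators -/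
theorem ndf_root (hz : z ∈ A) (hz' : z' ∈ A) (n : ℤ) (h : NDf ρ A (z ^ n) (z' ^ n)) :
    NDf ρ A z z' := by
  obtain ⟨R, _, _, _, F', _, i, s, r, h1, h2, h3, h4⟩ := h
  refine ⟨R, inferInstance, inferInstance, inferInstance, F', inferInstance, i, s, r, h1, hz, hz',
    fun h5 => h4 ?_⟩
  have e1 : (⟨z ^ n, h2⟩ : A) = ⟨z, hz⟩ ^ n := rfl
  have e2 : (⟨z' ^ n, h3⟩ : A) = ⟨z', hz'⟩ ^ n := rfl
  rw [e1, e2, map_zpow, map_zpow]
  exact trace_zpow_eq h5 n

end Pool.Agent.SuT4
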