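import Pool.Agent.Lib.MP_305fdd_al.Su.T4.Am
import Pool.Agent.Lib.MP_305fdd_al.Su.T4.NDf

/-!
# MP_305fdd_al, closed surface groups, assembly T4, T5: HNN extensions (master text, section 0)

`CMH g`: class membership for nondefect HNN trees (block CM-HNN).  `t4_hn`: the vertex group is free.
`t5_hn`: the package group is the closed surface group.
-/

set_option autoImplicit false
set_option linter.unusedSectionVars false

namespace Pool.Agent.SuT4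

open Matrix (SpecialLinearGroup)
open Pool.Agent.FrN Pool.Agent.FrS Pool.Agent.SuD Pool.Agent.Lib.MP_305fdd_al
  Pool.Agent.MP_305fdd_al Pool.Agent.SurfCnt Pool.Agent.FrAsm Pool.Agent.SuCM Pool.Agent.SuUp
  Pool.Agent.SuT

/-- CM-HNN: the vertex group `A` of a nondefect HNN tree has the points and the tangent vectors of the
free group of rank `2 g - 1`. -/
def CMH (g : ℕ) : Prop :=
  ∀ (Λ Γ F : Type) [Group Λ] [Group Γ] [Field F] [Algebra (ZMod 2) F]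
    (π : Λ →* Γ) (ρ : Γ →* SpecialLinearGroup (Fin 2) F), SuAA.Pk g π ρ →
    ∀ (A : Subgroup Γ) (t z : Γ), SuE.HnUP Γ A t (t⁻¹ * z * t) z → A.FG →
    (¬ ∀ x ∈ A, ∀ y ∈ A, x * y = y * x) → z ≠ 1 → MC (Subgroup.zpowers z) →
    NDf ρ A z (t⁻¹ * z * t) →
    ∃ b : ℕ, Algebra.trdeg (ZMod 2) (OO 2 (ρ.comp A.subtype)) = ((3 * b : ℕ) : Cardinal) ∧
      Nat.card (A →* Multiplicative (ZMod 2)) = 2 ^ b ∧ Pts (ρ.comp A.subtype) ∧ Tng A (3 * b)

variable {g : ℕ} {Λ Γ F : Type} [Group Λ] [Group Γ] [Field F] [Algebra (ZMod 2) F]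
  {π : Λ →* Γ} {ρ : Γ →* SpecialLinearGroup (Fin 2) F}

/-- T4 for HNN extensions: the vertex group is free. -/
theorem t4_hn (hcm : CMH g) (P : SuAA.Pk g π ρ) (hN : SuFin.NilS ρ) {V : Type} [MulAction Γ V]
    {X : SimpleGraph V} (hX : Spl Γ X) {v : V} {t : Γ} (h : HT Γ X v t) {z : Γ}
    (hz : z ∈ ES Γ v (t • v)) (hnd : NDf ρ (MulAction.stabilizer Γ v) z (t⁻¹ * z * t)) :
    IsFreeGroup (MulAction.stabilizer Γ v) := by
  obtain ⟨z₀, hz1, hz0, hZ⟩ := exists_z h.mc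
  have h1 := SuE.hnUP_of_tree h z₀ hZ
  rw [hZ] at hz
  obtain ⟨n, rfl⟩ := hz
  have h2 : t⁻¹ * z₀ ^ n * t = (t⁻¹ * z₀ * t) ^ n := by
    have h3 := conj_zpow (a := t⁻¹) (b := z₀) (i := n)
    rw [inv_inv] at h3
    exact h3.symm
  have hnd' : NDf ρ (MulAction.stabilizer Γ v) z₀ (t⁻¹ * z₀ * t) := by
    refine ndf_root h1.mem1 h1.mem0 n ?_
    rw [← h2]
    exact hnd
  have hmc : MC (Subgroup.zpowers z₀) := hZ ▸ h.mc
  obtain ⟨b, h3, h4, h5, h6⟩ := hcm Λ Γ F π ρ P _ t z₀ h1 (hX.fg v) (na_of (hX.na v)) hz1 hmc hnd'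
  have : Group.FG (MulAction.stabilizer Γ v) := (Group.fg_iff_subgroup_fg _).2 (hX.fg v)
  exact isFree_of (SuFin.free_of_pts (P.inj.comp Subtype.val_injective) h3 h4 h5 h6 (hN.sub _))

/-- T5 for HNN extensions: the package group is the closed surface group. -/
theorem t5_hn (hcm : CMH g) (P : SuAA.Pk g π ρ) (hN : SuFin.NilS ρ) {V : Type} [MulAction Γ V]
    {X : SimpleGraph V} (hX : Spl Γ X) {v : V} {t : Γ} (h : HT Γ X v t) {z : Γ}
    (hz : z ∈ ES Γ v (t • v)) (hnd : NDf ρ (MulAction.stabilizer Γ v) z (t⁻¹ * z * t)) :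
    Nonempty (Γ ≃* Su.SurfaceGroup g) := by
  have h1 := t4_hn hcm P hN hX h hz hnd
  obtain ⟨z₀, hz1, hz0, hZ⟩ := exists_z h.mc
  obtain ⟨Φ⟩ := P.nb
  have hg : 1 ≤ g := by have := P.two; omega
  exact SuE.surf_of_tree_hn_free hg Φ π P.surj P.kerSL h z₀ hZ
    (SuE.lgOrd_of_inj P.fg ρ P.inj z₀ hz0) h1

/-- the dichotomy: a splitting with two orbits of vertices, or a nondefect HNN tree -/
def Good (ρ : Γ →* SpecialLinearGroup (Fin 2) F) : Prop :=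
  (∃ (V : Type) (_ : MulAction Γ V) (X : SimpleGraph V) (u v : V), Spl Γ X ∧ X.Adj u v ∧
    OE Γ X u v ∧ ∀ g : Γ, g • u ≠ v) ∨
  ∃ (V : Type) (_ : MulAction Γ V) (X : SimpleGraph V) (v : V) (t z : Γ), Spl Γ X ∧ HT Γ X v t ∧
    z ∈ ES Γ v (t • v) ∧ NDf ρ (MulAction.stabilizer Γ v) z (t⁻¹ * z * t)

/-- T4 + T5 -/
theorem t5 (hcm : CMH g) (P : SuAA.Pk g π ρ) (hN : SuFin.NilS ρ) (h : Good ρ) :
    Nonempty (Γ ≃* Su.SurfaceGroup g) := by
  rcases h with ⟨V, _, X, u, v, h1, h2, h3, h4⟩ | ⟨V, _, X, v, t, z, h1, h2, h3, h4⟩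
  · exact t5_am P hN h1 h2 h3 h4
  · exact t5_hn hcm P hN h1 h2 h3 h4

end Pool.Agent.SuT4
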